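import Mathlib
import Pool.Agent.Lib.H96.LPDual

/-!
# Covers and fractional packings by `(r-1)`-sets; the rounding lemma
-/

set_option autoImplicit false

namespace Pool.Agent.H44T

open Finset

variable {V : Type*} [DecidableEq V]

/-- `C` is a cover of `H`: a set of `(r-1)`-sets such that every edge contains one of them. -/
def IsCover (r : ℕ) (H C : Finset (Finset V)) : Prop :=
  (∀ c ∈ C, c.card = r - 1) ∧ ∀ e ∈ H, ∃ c ∈ C, c ⊆ e

/-- `w` is a fractional packing: nonnegative weights on the edges, total weight at most `1` at every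
`(r-1)`-set. -/
def IsFractionalPacking (r : ℕ) (H : Finset (Finset V)) (w : Finset V → ℝ) : Prop :=
  (∀ e, 0 ≤ w e) ∧ ∀ s : Finset V, s.card = r - 1 → ∑ e ∈ H with s ⊆ e, w e ≤ 1

/-- `t` is a fractional cover of `H` by `(r-1)`-sets. -/
def IsFractionalCover (r : ℕ) (H : Finset (Finset V)) (t : Finset V → ℝ) : Prop :=
  (∀ s, 0 ≤ t s) ∧ ∀ e ∈ H, 1 ≤ ∑ s ∈ e.powersetCard (r - 1), t s

/-- LP duality. -/
theorem exists_fractionalCover [Fintype V] {r : ℕ} (H : Finset (Finset V))
    (hH : ∀ e ∈ H, e.card = r) (c : ℝ) (hc : 0 ≤ c)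
    (h : ∀ w, IsFractionalPacking r H w → ∑ e ∈ H, w e ≤ c) :
    ∃ t, IsFractionalCover r H t ∧ ∑ s ∈ (univ : Finset V).powersetCard (r - 1), t s ≤ c := by
  classical
  let K := (univ : Finset V).powersetCard (r - 1)
  obtain ⟨t, ht0, ht1, ht2⟩ := Pool.Agent.Lib.H96.LPDual.exists_cover
    (ι := H) (κ := K) (fun s e => if s.1 ⊆ e.1 then 1 else 0)
    (fun s e => by split_ifs <;> norm_num)
    (fun e => by
      obtain ⟨s, hs, hcard⟩ := Finset.exists_subset_card_eq (s := e.1) (n := r - 1)
        (by rw [hH e.1 e.2]; omega)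
      exact ⟨⟨s, Finset.mem_powersetCard.2 ⟨Finset.subset_univ _, hcard⟩⟩, by simp [hs]⟩)
    c hc (by
      intro w hw0 hw1
      have key := h (fun e => if he : e ∈ H then w ⟨e, he⟩ else 0) ⟨by
        intro e
        dsimp only
        split_ifs with he
        · exact hw0 _
        · exact le_rfl, by
        intro s hs
        have h1 := hw1 ⟨s, Finset.mem_powersetCard.2 ⟨Finset.subset_univ _, hs⟩⟩
        refine le_trans (le_of_eq ?_) h1
        rw [Finset.sum_filter, ← Finset.sum_coe_sort H]
        refine Finset.sum_congr rfl fun e _ => ?_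
        by_cases hse : s ⊆ e.1
        · simp [hse]
        · simp [hse]⟩
      refine le_trans (le_of_eq ?_) key
      rw [← Finset.sum_coe_sort H]
      refine Finset.sum_congr rfl fun e _ => ?_
      simp)
  refine ⟨fun s => if hs : s ∈ K then t ⟨s, hs⟩ else 0, ⟨?_, ?_⟩, ?_⟩
  · intro s
    dsimp only
    split_ifs
    · exact ht0 _
    · exact le_rfl
  · intro e he
    refine (ht1 ⟨e, he⟩).trans (le_of_eq ?_)
    have h1 : e.powersetCard (r - 1) = K.filter (fun s => s ⊆ e) := by
      ext s
      simp only [K, Finset.mem_powersetCard, Finset.mem_filter, Finset.subset_univ, true_and]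
      tauto
    rw [h1, Finset.sum_filter, ← Finset.sum_coe_sort K]
    refine Finset.sum_congr rfl fun s _ => ?_
    by_cases hse : s.1 ⊆ e
    · simp [hse]
    · simp [hse]
  · refine le_trans (le_of_eq ?_) ht2
    show ∑ s ∈ K, _ = _
    rw [← Finset.sum_coe_sort K]
    refine Finset.sum_congr rfl fun s _ => ?_
    simp

/-- Rounding with one valid function `W`: the sets `s` with `W s ≤ t s` form a cover. -/
theorem isCover_of_valid [Fintype V] {r : ℕ} (hr : 1 ≤ r) {H : Finset (Finset V)}
    (hH : ∀ e ∈ H, e.card = r) {t W : Finset V → ℝ} (ht : IsFractionalCover r H t)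
    (hW : ∀ e : Finset V, e.card = r → ∑ s ∈ e.powersetCard (r - 1), W s ≤ 1) :
    IsCover r H (((univ : Finset V).powersetCard (r - 1)).filter fun s => W s ≤ t s) := by
  constructor
  · intro c hc
    exact (Finset.mem_powersetCard.1 (Finset.mem_filter.1 hc).1).2
  · intro e he
    by_contra hcon
    push Not at hcon
    have h1 : ∀ s ∈ e.powersetCard (r - 1), t s < W s := by
      intro s hs
      obtain ⟨hse, hsc⟩ := Finset.mem_powersetCard.1 hs
      by_contra hle
      push Not at hle
      exact hcon s (Finset.mem_filter.2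
        ⟨Finset.mem_powersetCard.2 ⟨Finset.subset_univ _, hsc⟩, hle⟩) hse
    have hne : (e.powersetCard (r - 1)).Nonempty :=
      Finset.powersetCard_nonempty.2 (by rw [hH e he]; omega)
    have h2 := Finset.sum_lt_sum_of_nonempty hne h1
    have h3 := ht.2 e he
    have h4 := hW e (hH e he)
    linarith

end Pool.Agent.H44T
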