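import Mathlib
import Pool.Agent.Lib.H44.Tuza.Basic

/-!
# The bound `((r + 1) + √(r - 1)) / 2`
-/

set_option autoImplicit false

namespace Pool.Agent.H44T

open Finset MeasureTheory

variable {V : Type*} [DecidableEq V]

/-- The facets of an `r`-set are the sets obtained by erasing one element. -/
theorem sum_facets {r : ℕ} (hr : 1 ≤ r) {e : Finset V} (he : e.card = r) (g : Finset V → ℝ) :
    ∑ s ∈ e.powersetCard (r - 1), g s = ∑ x ∈ e, g (e.erase x) := by
  symm
  refine Finset.sum_bij (fun x _ => e.erase x) ?_ ?_ ?_ ?_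
  · intro x hx
    rw [Finset.mem_powersetCard]
    exact ⟨Finset.erase_subset _ _, by rw [Finset.card_erase_of_mem hx, he]⟩
  · intro x hx y hy h
    by_contra hne
    have h1 : x ∈ e.erase y := Finset.mem_erase.2 ⟨hne, hx⟩
    rw [← h] at h1
    exact (Finset.mem_erase.1 h1).1 rfl
  · intro s hs
    obtain ⟨hse, hsc⟩ := Finset.mem_powersetCard.1 hs
    have h1 : (e \ s).card = 1 := by
      rw [Finset.card_sdiff_of_subset hse, he, hsc]
      omega
    obtain ⟨x, hx⟩ := Finset.card_eq_one.1 h1
    have hxe : x ∈ e \ s := by rw [hx]; exact Finset.mem_singleton_self x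
    refine ⟨x, (Finset.mem_sdiff.1 hxe).1, ?_⟩
    refine (Finset.eq_of_subset_of_card_le ?_ ?_).symm
    · intro y hy
      refine Finset.mem_erase.2 ⟨?_, hse hy⟩
      rintro rfl
      exact (Finset.mem_sdiff.1 hxe).2 hy
    · rw [Finset.card_erase_of_mem (Finset.mem_sdiff.1 hxe).1, he, hsc]
  · intro x _
    rfl

/-- number of red vertices -/
def red (f : V → Bool) (s : Finset V) : ℕ := (s.filter fun x => f x = true).card

omit [DecidableEq V] in
theorem red_le (f : V → Bool) (s : Finset V) : red f s ≤ s.card := Finset.card_filter_le _ _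

/-- the normalisation -/
def mx (r : ℕ) (f : V → Bool) (s : Finset V) : ℕ := max (r - red f s) (red f s + 1)

omit [DecidableEq V] in
theorem mx_pos (r : ℕ) (f : V → Bool) (s : Finset V) : 0 < mx r f s :=
  lt_max_of_lt_right (Nat.succ_pos _)

/-- the random function -/
noncomputable def Wf (r : ℕ) (f : V → Bool) (u : ℝ) (s : Finset V) : ℝ :=
  (if Even (red f s) then u else 1 - u) / mx r f s

theorem red_erase_red {f : V → Bool} {e : Finset V} {x : V} (hx : x ∈ e) (h : f x = true) :
    red f (e.erase x) + 1 = red f e := by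
  unfold red
  rw [Finset.filter_erase, Finset.card_erase_add_one (Finset.mem_filter.2 ⟨hx, h⟩)]

theorem red_erase_blue {f : V → Bool} {e : Finset V} {x : V} (h : f x ≠ true) :
    red f (e.erase x) = red f e := by
  unfold red
  rw [Finset.filter_erase]
  rw [Finset.erase_eq_of_notMem]
  intro h'
  exact h (Finset.mem_filter.1 h').2

theorem Wf_valid {r : ℕ} (hr : 1 ≤ r) (f : V → Bool) {u : ℝ} (hu0 : 0 ≤ u) (hu1 : u ≤ 1)
    {e : Finset V} (he : e.card = r) : ∑ s ∈ e.powersetCard (r - 1), Wf r f u s ≤ 1 := by
  rw [sum_facets hr he]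
  set b := red f e with hb
  have hbr : b ≤ r := he ▸ red_le f e
  set a : ℝ := if Even b then u else 1 - u with ha
  have ha0 : 0 ≤ a := by rw [ha]; split_ifs <;> linarith
  have ha1 : a ≤ 1 := by rw [ha]; split_ifs <;> linarith
  have hred : ∀ x ∈ e.filter (fun x => f x = true), Wf r f u (e.erase x) ≤ (1 - a) / b := by
    intro x hx
    obtain ⟨hxe, hx⟩ := Finset.mem_filter.1 hx
    have h1 := red_erase_red hxe hx
    have hb0 : 0 < b := by omega
    have h2 : (if Even (red f (e.erase x)) then u else 1 - u) = 1 - a := by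
      rw [ha]
      have h3 : red f (e.erase x) + 1 = b := h1
      rw [← h3]
      by_cases h4 : Even (red f (e.erase x))
      · rw [if_pos h4, if_neg (by rw [Nat.even_add_one]; exact not_not.2 h4)]
        ring
      · rw [if_neg h4, if_pos (Nat.even_add_one.2 h4)]
    unfold Wf
    rw [h2]
    have h5 : b ≤ mx r f (e.erase x) := by
      unfold mx
      refine le_max_of_le_right ?_
      omega
    exact div_le_div_of_nonneg_left (by linarith) (by exact_mod_cast hb0) (by exact_mod_cast h5)
  have hblue : ∀ x ∈ e.filter (fun x => ¬ f x = true), Wf r f u (e.erase x) ≤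
      a / ((r - b : ℕ) : ℝ) := by
    intro x hx
    obtain ⟨hxe, hx⟩ := Finset.mem_filter.1 hx
    have h1 : red f (e.erase x) = b := red_erase_blue hx
    have hb0 : b < r := by
      have h2 : b + (e.filter (fun x => ¬ f x = true)).card = r := by
        rw [hb, red, ← he]
        exact Finset.card_filter_add_card_filter_not _
      have h3 : 0 < (e.filter (fun x => ¬ f x = true)).card :=
        Finset.card_pos.2 ⟨x, Finset.mem_filter.2 ⟨hxe, hx⟩⟩
      omega
    unfold Wf
    rw [h1, ← ha]
    have h5 : r - b ≤ mx r f (e.erase x) := by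
      unfold mx
      rw [h1]
      exact le_max_left _ _
    exact div_le_div_of_nonneg_left ha0 (by exact_mod_cast Nat.sub_pos_of_lt hb0)
      (by exact_mod_cast h5)
  rw [← Finset.sum_filter_add_sum_filter_not e (fun x => f x = true)]
  have h1 := Finset.sum_le_card_nsmul _ _ _ hred
  have h2 := Finset.sum_le_card_nsmul _ _ _ hblue
  have hc1 : (e.filter (fun x => f x = true)).card = b := rfl
  have hc2 : (e.filter (fun x => ¬ f x = true)).card = r - b := by
    have h3 : b + (e.filter (fun x => ¬ f x = true)).card = r := by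
      rw [hb, red, ← he]
      exact Finset.card_filter_add_card_filter_not _
    omega
  rw [hc1, nsmul_eq_mul] at h1
  rw [hc2, nsmul_eq_mul] at h2
  have h3 : (b : ℝ) * ((1 - a) / b) ≤ 1 - a := by
    rcases Nat.eq_zero_or_pos b with h0 | h0
    · rw [h0]
      simp only [Nat.cast_zero, zero_mul]
      linarith
    · rw [mul_div_cancel₀]
      exact_mod_cast h0.ne'
  have h4 : ((r - b : ℕ) : ℝ) * (a / ((r - b : ℕ) : ℝ)) ≤ a := by
    rcases Nat.eq_zero_or_pos (r - b) with h0 | h0
    · rw [h0]
      simp only [Nat.cast_zero, zero_mul]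
      linarith
    · rw [mul_div_cancel₀]
      exact_mod_cast h0.ne'
  linarith

/-- Lebesgue measure of the unit interval -/
noncomputable abbrev lam : Measure ℝ := volume.restrict (Set.Icc 0 1)

instance : IsProbabilityMeasure lam := ⟨by
  rw [Measure.restrict_apply_univ, Real.volume_Icc]
  simp⟩

theorem Wf_law (r : ℕ) (f : V → Bool) (s : Finset V) {x : ℝ} (hx : 0 ≤ x) :
    lam.real {u : ℝ | Wf r f u s ≤ x} ≤ mx r f s * x := by
  have hm : (0:ℝ) < mx r f s := by exact_mod_cast mx_pos r f s
  have hmx : 0 ≤ (mx r f s : ℝ) * x := mul_nonneg hm.le hx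
  rw [measureReal_def]
  refine ENNReal.toReal_le_of_le_ofReal hmx ?_
  have hmeas : MeasurableSet {u : ℝ | Wf r f u s ≤ x} := by
    unfold Wf
    by_cases h : Even (red f s)
    · simp only [if_pos h]
      exact measurableSet_le (by fun_prop) measurable_const
    · simp only [if_neg h]
      exact measurableSet_le (by fun_prop) measurable_const
  rw [Measure.restrict_apply hmeas]
  by_cases h : Even (red f s)
  · calc volume ({u : ℝ | Wf r f u s ≤ x} ∩ Set.Icc 0 1) ≤ volume (Set.Icc 0 ((mx r f s : ℝ) * x)) := by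
          refine measure_mono ?_
          rintro u ⟨hu, hu0, -⟩
          refine ⟨hu0, ?_⟩
          simp only [Wf, if_pos h, Set.mem_ofPred_eq] at hu
          rw [div_le_iff₀ hm] at hu
          linarith
      _ = ENNReal.ofReal ((mx r f s : ℝ) * x) := by rw [Real.volume_Icc, sub_zero]
  · calc volume ({u : ℝ | Wf r f u s ≤ x} ∩ Set.Icc 0 1) ≤
          volume (Set.Icc (1 - (mx r f s : ℝ) * x) 1) := by
          refine measure_mono ?_
          rintro u ⟨hu, -, hu1⟩
          refine ⟨?_, hu1⟩
          simp only [Wf, if_neg h, Set.mem_ofPred_eq] at hu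
          rw [div_le_iff₀ hm] at hu
          linarith
      _ = ENNReal.ofReal ((mx r f s : ℝ) * x) := by
          rw [Real.volume_Icc]
          congr 1
          ring

/-- the signs -/
def sg (b : Bool) : ℝ := if b then 1 else -1

theorem sum_sq (W : Type*) [Fintype W] [DecidableEq W] (s : Finset W) :
    ∑ f : W → Bool, (∑ x ∈ s, sg (f x)) ^ 2 = s.card * 2 ^ Fintype.card W := by
  have hflip : ∀ x y : W, x ≠ y → ∑ f : W → Bool, sg (f x) * sg (f y) = 0 := by
    intro x y hxy
    let φ : (W → Bool) ≃ (W → Bool) :=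
      { toFun := fun f => Function.update f x (!f x)
        invFun := fun f => Function.update f x (!f x)
        left_inv := fun f => by simp
        right_inv := fun f => by simp }
    have h1 := Equiv.sum_comp φ (fun f : W → Bool => sg (f x) * sg (f y))
    have h2 : ∀ f : W → Bool, sg (φ f x) * sg (φ f y) = -(sg (f x) * sg (f y)) := by
      intro f
      show sg (Function.update f x (!f x) x) * sg (Function.update f x (!f x) y) = _
      rw [Function.update_self, Function.update_of_ne hxy.symm]
      cases f x <;> cases f y <;> simp [sg]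
    simp only [h2] at h1
    rw [Finset.sum_neg_distrib] at h1
    linarith
  have hsq : ∀ x : W, ∑ f : W → Bool, sg (f x) * sg (f x) = 2 ^ Fintype.card W := by
    intro x
    have h1 : ∀ f : W → Bool, sg (f x) * sg (f x) = 1 := fun f => by cases f x <;> simp [sg]
    simp only [h1]
    rw [Finset.sum_const, Finset.card_univ, nsmul_eq_mul, mul_one, Fintype.card_fun,
      Fintype.card_bool]
    push_cast
    rfl
  calc ∑ f : W → Bool, (∑ x ∈ s, sg (f x)) ^ 2
      = ∑ f : W → Bool, ∑ x ∈ s, ∑ y ∈ s, sg (f x) * sg (f y) := by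
        refine Finset.sum_congr rfl fun f _ => ?_
        rw [sq, Finset.sum_mul_sum]
    _ = ∑ x ∈ s, ∑ y ∈ s, ∑ f : W → Bool, sg (f x) * sg (f y) := by
        rw [Finset.sum_comm]
        refine Finset.sum_congr rfl fun x _ => ?_
        rw [Finset.sum_comm]
    _ = ∑ x ∈ s, (2:ℝ) ^ Fintype.card W := by
        refine Finset.sum_congr rfl fun x hx => ?_
        rw [Finset.sum_eq_single x]
        · exact hsq x
        · intro y _ hy
          exact hflip x y hy.symm
        · intro h
          exact absurd hx h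
    _ = s.card * 2 ^ Fintype.card W := by rw [Finset.sum_const, nsmul_eq_mul]

theorem sum_mx [Fintype V] {r : ℕ} (hr : 1 ≤ r) {s : Finset V} (hs : s.card = r - 1) :
    ∑ f : V → Bool, (mx r f s : ℝ) ≤ ((r + 1) / 2 + √(r - 1) / 2) * 2 ^ Fintype.card V := by
  have hr1 : ((r - 1 : ℕ) : ℝ) = (r:ℝ) - 1 := by
    rw [Nat.cast_sub hr]
    simp
  have h1 : ∀ f : V → Bool, (mx r f s : ℝ) = (r + 1) / 2 + |∑ x ∈ s, sg (f x)| / 2 := by
    intro f
    have hsum : ∑ x ∈ s, sg (f x) = 2 * (red f s : ℝ) - (r - 1) := by
      rw [← Finset.sum_filter_add_sum_filter_not s (fun x => f x = true)]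
      have h2 : ∑ x ∈ s.filter (fun x => f x = true), sg (f x) = red f s := by
        rw [Finset.sum_congr rfl (g := fun _ => (1:ℝ))]
        · rw [Finset.sum_const, nsmul_eq_mul, mul_one]
          rfl
        · intro x hx
          rw [(Finset.mem_filter.1 hx).2]
          simp [sg]
      have h3 : ∑ x ∈ s.filter (fun x => ¬ f x = true), sg (f x) =
          -((r - 1 : ℝ) - red f s) := by
        rw [Finset.sum_congr rfl (g := fun _ => (-1:ℝ))]
        · rw [Finset.sum_const, nsmul_eq_mul]
          have h4 : red f s + (s.filter (fun x => ¬ f x = true)).card = r - 1 := by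
            rw [red, ← hs]
            exact Finset.card_filter_add_card_filter_not _
          have h5 : (red f s : ℝ) + ((s.filter (fun x => ¬ f x = true)).card : ℝ) = r - 1 := by
            rw [← hr1]
            exact_mod_cast h4
          linarith
        · intro x hx
          have := (Finset.mem_filter.1 hx).2
          rw [Bool.not_eq_true] at this
          rw [this]
          simp [sg]
      rw [h2, h3]
      ring
    have hle : red f s ≤ r - 1 := hs ▸ red_le f s
    have hmx : (mx r f s : ℝ) = max ((r : ℝ) - red f s) (red f s + 1) := by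
      unfold mx
      rw [Nat.cast_max, Nat.cast_sub (by omega)]
      push_cast
      rfl
    rw [hmx, hsum, max_def]
    split_ifs with h
    · rw [abs_of_nonneg (by linarith)]
      ring
    · rw [abs_of_neg (by linarith)]
      ring
  simp only [h1]
  rw [Finset.sum_add_distrib, Finset.sum_const, Finset.card_univ, nsmul_eq_mul, Fintype.card_fun,
    Fintype.card_bool, ← Finset.sum_div]
  have hcs : ∑ f : V → Bool, |∑ x ∈ s, sg (f x)| ≤ √(r - 1) * 2 ^ Fintype.card V := by
    have h2 := sq_sum_le_card_mul_sum_sq (s := (Finset.univ : Finset (V → Bool)))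
      (f := fun f => |∑ x ∈ s, sg (f x)|)
    simp only [sq_abs] at h2
    rw [sum_sq, Finset.card_univ, Fintype.card_fun, Fintype.card_bool, hs, hr1] at h2
    push_cast at h2
    have h3 : (∑ f : V → Bool, |∑ x ∈ s, sg (f x)|) ^ 2 ≤ (√((r:ℝ) - 1) * 2 ^ Fintype.card V) ^ 2 := by
      refine h2.trans (le_of_eq ?_)
      rw [mul_pow, Real.sq_sqrt (by
        have : (1:ℝ) ≤ r := by exact_mod_cast hr
        linarith)]
      ring
    exact (abs_le_of_sq_le_sq' h3 (by positivity)).2
  push_cast
  nlinarith

theorem general [Fintype V] {r : ℕ} (hr : 1 ≤ r) (H : Finset (Finset V))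
    (hH : ∀ e ∈ H, e.card = r) {t : Finset V → ℝ} (ht : IsFractionalCover r H t) :
    ∃ C, IsCover r H C ∧ (C.card : ℝ) ≤ ((r + 1) / 2 + √(r - 1) / 2) *
      ∑ s ∈ (univ : Finset V).powersetCard (r - 1), t s := by
  classical
  set K := (univ : Finset V).powersetCard (r - 1) with hK
  have hKc : ∀ s ∈ K, s.card = r - 1 := fun s hs => (Finset.mem_powersetCard.1 hs).2
  set N : ℝ → ℝ := fun u => ∑ f : V → Bool, ((K.filter fun s => Wf r f u s ≤ t s).card : ℝ) with hN
  have hmeasS : ∀ (f : V → Bool) (s : Finset V), MeasurableSet {u : ℝ | Wf r f u s ≤ t s} := by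
    intro f s
    unfold Wf
    by_cases h : Even (red f s)
    · simp only [if_pos h]
      exact measurableSet_le (by fun_prop) measurable_const
    · simp only [if_neg h]
      exact measurableSet_le (by fun_prop) measurable_const
  have hNind : N = fun u => ∑ f : V → Bool, ∑ s ∈ K,
      Set.indicator {u : ℝ | Wf r f u s ≤ t s} (fun _ => (1:ℝ)) u := by
    funext u
    simp only [hN]
    refine Finset.sum_congr rfl fun f _ => ?_
    rw [Finset.card_filter]
    push_cast
    refine Finset.sum_congr rfl fun s _ => ?_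
    simp only [Set.indicator, Set.mem_ofPred_eq]
  have hint1 : ∀ (f : V → Bool) (s : Finset V), Integrable
      (Set.indicator {u : ℝ | Wf r f u s ≤ t s} (fun _ => (1:ℝ))) lam := fun f s =>
    (integrable_const (1:ℝ)).indicator (hmeasS f s)
  have hint : Integrable N lam := by
    rw [hNind]
    exact integrable_finsetSum _ fun f _ => integrable_finsetSum _ fun s _ => hint1 f s
  have hIN : ∫ u, N u ∂lam ≤ ((r + 1) / 2 + √(r - 1) / 2) * 2 ^ Fintype.card V * ∑ s ∈ K, t s := by
    rw [hNind, integral_finsetSum _ fun f _ => integrable_finsetSum _ fun s _ => hint1 f s]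
    have h1 : ∀ f : V → Bool, ∫ u, ∑ s ∈ K,
        Set.indicator {u : ℝ | Wf r f u s ≤ t s} (fun _ => (1:ℝ)) u ∂lam ≤
        ∑ s ∈ K, mx r f s * t s := by
      intro f
      rw [integral_finsetSum _ fun s _ => hint1 f s]
      refine Finset.sum_le_sum fun s _ => ?_
      rw [integral_indicator_const _ (hmeasS f s), smul_eq_mul, mul_one]
      exact Wf_law r f s (ht.1 s)
    refine (Finset.sum_le_sum fun f _ => h1 f).trans ?_
    rw [Finset.sum_comm, Finset.mul_sum]
    refine Finset.sum_le_sum fun s hs => ?_
    rw [← Finset.sum_mul]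
    exact mul_le_mul_of_nonneg_right (sum_mx hr (hKc s hs)) (ht.1 s)
  obtain ⟨u, hu01, hu⟩ : ∃ u ∈ Set.Icc (0:ℝ) 1, N u ≤
      ((r + 1) / 2 + √(r - 1) / 2) * 2 ^ Fintype.card V * ∑ s ∈ K, t s := by
    by_contra hcon
    push Not at hcon
    have h1 : ∫ u, N u ∂lam > ((r + 1) / 2 + √(r - 1) / 2) * 2 ^ Fintype.card V * ∑ s ∈ K, t s := by
      set c := ((r + 1) / 2 + √(r - 1) / 2) * 2 ^ Fintype.card V * ∑ s ∈ K, t s with hc
      obtain ⟨v, hv⟩ := exists_le_integral (μ := lam) (f := fun u => if u ∈ Set.Icc (0:ℝ) 1 then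
        N u else N u + (|c| + 1) + |N u|) (by
          refine hint.congr ?_
          filter_upwards [ae_restrict_mem measurableSet_Icc] with u hu
          rw [if_pos hu])
      have h2 : ∫ u, (if u ∈ Set.Icc (0:ℝ) 1 then N u else N u + (|c| + 1) + |N u|) ∂lam =
          ∫ u, N u ∂lam := by
        refine integral_congr_ae ?_
        filter_upwards [ae_restrict_mem measurableSet_Icc] with u hu
        rw [if_pos hu]
      rw [h2] at hv
      refine lt_of_lt_of_le ?_ hv
      split_ifs with h3
      · exact hcon v h3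
      · have := neg_abs_le (N v)
        have := le_abs_self c
        linarith
    linarith
  have hex : ∃ f : V → Bool, ((K.filter fun s => Wf r f u s ≤ t s).card : ℝ) ≤
      ((r + 1) / 2 + √(r - 1) / 2) * ∑ s ∈ K, t s := by
    by_contra hcon
    push Not at hcon
    have h1 : ∑ f : V → Bool, (((r + 1) / 2 + √(r - 1) / 2) * ∑ s ∈ K, t s) < N u :=
      Finset.sum_lt_sum_of_nonempty ⟨fun _ => true, Finset.mem_univ _⟩ fun f _ => hcon f
    rw [Finset.sum_const, Finset.card_univ, Fintype.card_fun, Fintype.card_bool, nsmul_eq_mul] at h1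
    push_cast at h1
    nlinarith
  obtain ⟨f, hf⟩ := hex
  exact ⟨_, isCover_of_valid hr hH ht (fun e he => Wf_valid hr f hu01.1 hu01.2 he), hf⟩

end Pool.Agent.H44T
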