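import Mathlib
import Pool.Agent.Lib.H44.Tuza.Basic
import Pool.Agent.Lib.H44.Tuza.General

/-!
# Certificates for the constant in the rounding lemma

A colour `i` has a weight `ws i`; the index of a set in a colouring is the sum of the weights of its
vertices.  A column is a number `N` which stores the values `get N I`.
-/

set_option autoImplicit false

namespace Pool.Agent.H44T

open Finset

/-- entry `I` of the table `N` -/
def get (N I : ℕ) : ℕ := (N >>> (12 * I)) % 4096

/-- conjunction for `x < n` -/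
def allTo : ℕ → (ℕ → Bool) → Bool
  | 0, _ => true
  | n + 1, F => allTo n F && F n

/-- sum for `x < n` -/
def sumTo : ℕ → (ℕ → ℕ) → ℕ
  | 0, _ => 0
  | n + 1, F => sumTo n F + F n

theorem allTo_iff (n : ℕ) (F : ℕ → Bool) : allTo n F = true ↔ ∀ x < n, F x = true := by
  induction n with
  | zero => simp [allTo]
  | succ n ih =>
    rw [allTo, Bool.and_eq_true, ih]
    constructor
    · rintro ⟨h1, h2⟩ x hx
      rcases Nat.lt_succ_iff_lt_or_eq.1 hx with h | rfl
      · exact h1 x h
      · exact h2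
    · intro h
      exact ⟨fun x hx => h x (Nat.lt_succ_of_lt hx), h n (Nat.lt_succ_self n)⟩

theorem sumTo_eq (n : ℕ) (F : ℕ → ℕ) : sumTo n F = ∑ x ∈ range n, F x := by
  induction n with
  | zero => rfl
  | succ n ih => rw [sumTo, ih, Finset.sum_range_succ]

/-- sum over the facets of the types in the list -/
def fsum (N I : ℕ) : List (ℕ × ℕ) → ℕ
  | [] => 0
  | q :: l => q.1 * get N (I - q.2) + fsum N I l

/-- validity of the table `N` -/
def evCheck (N M : ℕ) : List ℕ → ℕ → ℕ → List (ℕ × ℕ) → Bool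
  | [], m, I, l => if m = 0 then decide (fsum N I l ≤ M) else true
  | w :: ws, m, I, l => allTo (m + 1) fun x => evCheck N M ws (m - x) (I + x * w) ((x, w) :: l)

theorem evCheck_sound (N M : ℕ) : ∀ (k : ℕ) (ws : Fin k → ℕ) (m I : ℕ) (l : List (ℕ × ℕ)),
    evCheck N M (List.ofFn ws) m I l = true → ∀ b : Fin k → ℕ, ∑ i, b i = m →
      fsum N (I + ∑ i, b i * ws i) l + ∑ i, b i * get N (I + ∑ j, b j * ws j - ws i) ≤ M := by
  intro k
  induction k with
  | zero =>
    intro ws m I l h b hb
    have hm : m = 0 := by rw [← hb]; simp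
    subst hm
    simp only [List.ofFn_zero, evCheck, if_true, decide_eq_true_eq] at h
    simpa using h
  | succ k ih =>
    intro ws m I l h b hb
    rw [List.ofFn_succ, evCheck, allTo_iff] at h
    rw [Fin.sum_univ_succ] at hb
    have hx : b 0 < m + 1 := by omega
    have h1 := ih (fun i => ws i.succ) (m - b 0) (I + b 0 * ws 0) ((b 0, ws 0) :: l) (h _ hx)
      (fun i => b i.succ) (by omega)
    rw [fsum] at h1
    simp only at h1
    rw [Fin.sum_univ_succ, Fin.sum_univ_succ]
    simp only [← add_assoc] at h1 ⊢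
    linarith

/-- multinomial sum over the types -/
def D : List ℕ → ℕ → (ℕ → ℕ) → ℕ
  | [], m, Φ => if m = 0 then Φ 0 else 0
  | w :: ws, m, Φ => sumTo (m + 1) fun x => m.choose x * D ws (m - x) fun I => Φ (I + x * w)

theorem D_zero (ws : List ℕ) (Φ : ℕ → ℕ) : D ws 0 Φ = Φ 0 := by
  induction ws generalizing Φ with
  | nil => simp [D]
  | cons w ws ih => simp [D, sumTo, ih]

theorem D_succ (ws : List ℕ) (m : ℕ) (Φ : ℕ → ℕ) :
    D ws (m + 1) Φ = (ws.map fun w => D ws m fun I => Φ (I + w)).sum := by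
  induction ws generalizing m Φ with
  | nil => simp [D]
  | cons w ws ih =>
    rw [D, sumTo_eq]
    have h1 := Finset.sum_choose_succ_mul (R := ℕ)
      (fun x y => D ws y fun I => Φ (I + x * w)) m
    simp only [Nat.cast_id] at h1
    rw [h1, List.map_cons, List.sum_cons, add_comm]
    congr 1
    · rw [D, sumTo_eq]
      refine Finset.sum_congr rfl fun x _ => ?_
      congr 2
      funext I
      congr 1
      ring
    · have h2 : ∀ x ∈ range (m + 1), m.choose x * D ws (m + 1 - x) (fun I => Φ (I + x * w)) =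
          (ws.map fun w' => m.choose x * D ws (m - x) fun I => Φ (I + x * w + w')).sum := by
        intro x hx
        have hxm : x ≤ m := Nat.lt_succ_iff.1 (mem_range.1 hx)
        have h3 : m + 1 - x = (m - x) + 1 := by omega
        rw [h3, ih, List.sum_map_mul_left]
        congr 3
        funext w'
        congr 1
        funext I
        congr 1
        ring
      rw [Finset.sum_congr rfl h2]
      have h4 : ∀ w' : ℕ, D (w :: ws) m (fun I => Φ (I + w')) =
          ∑ x ∈ range (m + 1), m.choose x * D ws (m - x) fun I => Φ (I + x * w + w') := by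
        intro w'
        rw [D, sumTo_eq]
      simp only [h4]
      generalize hL : ws = L at *
      clear h4 h2 h1 ih
      have : ∀ L' : List ℕ, ∑ x ∈ range (m + 1),
          (L'.map fun w' => m.choose x * D L (m - x) fun I => Φ (I + x * w + w')).sum =
          (L'.map fun w' => ∑ x ∈ range (m + 1), m.choose x *
            D L (m - x) fun I => Φ (I + x * w + w')).sum := by
        intro L'
        induction L' with
        | nil => simp
        | cons a L' ih' =>
          simp only [List.map_cons, List.sum_cons]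
          rw [Finset.sum_add_distrib, ih']
      exact this L

variable {V : Type*} [DecidableEq V] [Fintype V]

/-- exchange of a colour -/
theorem sum_update {k : ℕ} (v : V) (G : Fin k → (V → Fin k) → ℕ)
    (hG : ∀ i f j, G i (Function.update f v j) = G i f) :
    ∑ i, ∑ f : V → Fin k, G i f = k * ∑ f : V → Fin k, G (f v) f := by
  let σ : (Fin k × (V → Fin k)) ≃ (Fin k × (V → Fin k)) :=
    { toFun := fun p => (p.2 v, Function.update p.2 v p.1)
      invFun := fun p => (p.2 v, Function.update p.2 v p.1)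
      left_inv := fun p => by simp
      right_inv := fun p => by simp }
  have h1 : ∑ p : Fin k × (V → Fin k), G p.1 p.2 = ∑ p : Fin k × (V → Fin k), G (p.2 v) p.2 := by
    rw [← Equiv.sum_comp σ]
    refine Finset.sum_congr rfl fun p _ => ?_
    exact hG _ _ _
  rw [Fintype.sum_prod_type, Fintype.sum_prod_type] at h1
  rw [h1]
  show ∑ _x : Fin k, ∑ f : V → Fin k, G (f v) f = _
  rw [Finset.sum_const, Finset.card_univ, Fintype.card_fin, smul_eq_mul]

theorem count {k : ℕ} (ws : Fin k → ℕ) (s : Finset V) (Φ : ℕ → ℕ) :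
    k ^ s.card * ∑ f : V → Fin k, Φ (∑ v ∈ s, ws (f v)) =
      k ^ Fintype.card V * D (List.ofFn ws) s.card Φ := by
  induction s using Finset.induction_on generalizing Φ with
  | empty =>
    simp only [Finset.card_empty, pow_zero, one_mul, Finset.sum_empty, D_zero]
    rw [Finset.sum_const, Finset.card_univ, Fintype.card_fun, Fintype.card_fin, smul_eq_mul]
  | insert v s hv ih =>
    rw [Finset.card_insert_of_notMem hv, D_succ]
    have h1 := sum_update v (fun i f => Φ (∑ u ∈ s, ws (f u) + ws i)) (by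
      intro i f j
      congr 2
      refine Finset.sum_congr rfl fun u hu => ?_
      rw [Function.update_of_ne (ne_of_mem_of_not_mem hu hv)])
    have h2 : ∑ f : V → Fin k, Φ (∑ u ∈ insert v s, ws (f u)) =
        ∑ f : V → Fin k, Φ (∑ u ∈ s, ws (f u) + ws (f v)) := by
      refine Finset.sum_congr rfl fun f _ => ?_
      rw [Finset.sum_insert hv, add_comm]
    rw [h2, pow_succ, mul_assoc, ← h1, Finset.mul_sum]
    simp only [fun i => ih (fun I => Φ (I + ws i))]
    rw [← Finset.mul_sum]
    congr 1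
    rw [List.map_ofFn, List.sum_ofFn]
    rfl

omit [Fintype V] in
/-- validity of the function defined by a column and a colouring -/
theorem valid_of_evCheck {k : ℕ} (ws : Fin k → ℕ) {N M r : ℕ}
    (h : evCheck N M (List.ofFn ws) r 0 [] = true) (f : V → Fin k) {e : Finset V}
    (he : e.card = r) : ∑ x ∈ e, get N (∑ v ∈ e.erase x, ws (f v)) ≤ M := by
  set b : Fin k → ℕ := fun i => (e.filter fun x => f x = i).card with hb
  have hbr : ∑ i, b i = r := by
    rw [← he]
    exact (Finset.card_eq_sum_card_fiberwise (f := f) (t := Finset.univ)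
      (fun x _ => Finset.mem_univ _)).symm
  have hI : ∑ v ∈ e, ws (f v) = ∑ i, b i * ws i := by
    rw [← Finset.sum_fiberwise e f]
    refine Finset.sum_congr rfl fun i _ => ?_
    rw [Finset.sum_congr rfl (g := fun _ => ws i)
      (fun x hx => by rw [(Finset.mem_filter.1 hx).2]), Finset.sum_const, smul_eq_mul]
  have h1 := evCheck_sound N M k ws r 0 [] h b hbr
  simp only [fsum, zero_add] at h1
  refine le_trans (le_of_eq ?_) h1
  rw [← Finset.sum_fiberwise e f]
  refine Finset.sum_congr rfl fun i _ => ?_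
  rw [Finset.sum_congr rfl (g := fun _ => get N (∑ j, b j * ws j - ws i)), Finset.sum_const,
    smul_eq_mul]
  intro x hx
  obtain ⟨hxe, hx⟩ := Finset.mem_filter.1 hx
  congr 1
  rw [← hI, ← Finset.add_sum_erase e (fun v => ws (f v)) hxe, hx]
  omega

/-- the second check -/
def cdf (cols : List (ℕ × ℕ)) (ws : List ℕ) (m j : ℕ) : ℕ :=
  (cols.map fun p => p.1 * D ws m fun I => if get p.2 I ≤ j then 1 else 0).sum

theorem cert_fin {ι : Type*} [Fintype ι] {k : ℕ} (hk : 0 < k) (ws : Fin k → ℕ) {r M ρ J : ℕ}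
    (hr : 1 ≤ r) (hM : 0 < M) (lam N : ι → ℕ)
    (hA : ∀ i, evCheck (N i) M (List.ofFn ws) r 0 [] = true)
    (hB : ∀ j < J, (∑ i, lam i * D (List.ofFn ws) (r - 1) fun I => if get (N i) I ≤ j then 1 else 0) *
      M ≤ ρ * j * (∑ i, lam i) * k ^ (r - 1))
    (hJ : M ≤ ρ * J) (hΛ : 0 < ∑ i, lam i)
    (H : Finset (Finset V)) (hH : ∀ e ∈ H, e.card = r) {t : Finset V → ℝ}
    (ht : IsFractionalCover r H t) :
    ∃ C, IsCover r H C ∧ (C.card : ℝ) ≤
      ρ * ∑ s ∈ (univ : Finset V).powersetCard (r - 1), t s := by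
  classical
  set K := (univ : Finset V).powersetCard (r - 1) with hK
  have hKc : ∀ s ∈ K, s.card = r - 1 := fun s hs => (Finset.mem_powersetCard.1 hs).2
  set Λ := ∑ i, lam i with hΛd
  have hMR : (0:ℝ) < M := by exact_mod_cast hM
  have hkR : (0:ℝ) < k := by exact_mod_cast hk
  have hΛR : (0:ℝ) < Λ := by exact_mod_cast hΛ
  set C : ι → (V → Fin k) → Finset (Finset V) := fun i f =>
    K.filter fun s => (get (N i) (∑ v ∈ s, ws (f v)) : ℝ) / M ≤ t s with hC
  have hcover : ∀ i f, IsCover r H (C i f) := by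
    intro i f
    refine isCover_of_valid hr hH ht fun e he => ?_
    rw [sum_facets hr he, ← Finset.sum_div, div_le_one hMR]
    exact_mod_cast valid_of_evCheck ws (hA i) f he
  by_contra hcon
  push Not at hcon
  set T : ℝ := ∑ s ∈ K, t s with hT
  have hcard : ∀ i f, ρ * T < ((C i f).card : ℝ) := fun i f => hcon _ (hcover i f)
  have hup : ∀ s ∈ K, (∑ i, (lam i : ℝ) * ∑ f : V → Fin k,
      (if (get (N i) (∑ v ∈ s, ws (f v)) : ℝ) / M ≤ t s then (1:ℝ) else 0)) ≤
      ρ * t s * Λ * k ^ Fintype.card V := by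
    intro s hs
    have hts : 0 ≤ t s := ht.1 s
    set j := ⌊M * t s⌋₊ with hj
    have hj2 : (j : ℝ) ≤ M * t s := Nat.floor_le (mul_nonneg hMR.le hts)
    have hiff : ∀ n : ℕ, (n : ℝ) / M ≤ t s ↔ n ≤ j := by
      intro n
      rw [div_le_iff₀ hMR, mul_comm, hj]
      exact (Nat.le_floor_iff (mul_nonneg hMR.le hts)).symm
    set X : ℕ := ∑ i, lam i * ∑ f : V → Fin k,
        (if get (N i) (∑ v ∈ s, ws (f v)) ≤ j then 1 else 0) with hX
    have hcast : (∑ i, (lam i : ℝ) * ∑ f : V → Fin k,
        (if (get (N i) (∑ v ∈ s, ws (f v)) : ℝ) / M ≤ t s then (1:ℝ) else 0)) = (X : ℝ) := by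
      rw [hX]
      push_cast
      refine Finset.sum_congr rfl fun i _ => ?_
      congr 1
      refine Finset.sum_congr rfl fun f _ => ?_
      by_cases h : get (N i) (∑ v ∈ s, ws (f v)) ≤ j
      · rw [if_pos h, if_pos ((hiff _).2 h)]
      · rw [if_neg h, if_neg (fun h' => h ((hiff _).1 h'))]
    rw [hcast]
    rcases lt_or_ge j J with hjJ | hjJ
    · have h1 := hB j hjJ
      have h2 : k ^ (r - 1) * X = k ^ Fintype.card V *
          ∑ i, lam i * D (List.ofFn ws) (r - 1) fun I => if get (N i) I ≤ j then 1 else 0 := by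
        rw [hX, Finset.mul_sum, Finset.mul_sum]
        refine Finset.sum_congr rfl fun i _ => ?_
        have h3 := count ws s (fun I => if get (N i) I ≤ j then 1 else 0)
        rw [hKc s hs] at h3
        calc k ^ (r - 1) * (lam i * ∑ f : V → Fin k,
            if get (N i) (∑ v ∈ s, ws (f v)) ≤ j then 1 else 0)
            = lam i * (k ^ (r - 1) * ∑ f : V → Fin k,
              if get (N i) (∑ v ∈ s, ws (f v)) ≤ j then 1 else 0) := by ring
          _ = _ := by rw [h3]; ring
      have h4 : (k:ℝ) ^ (r - 1) * X * M ≤ k ^ Fintype.card V * (ρ * j * Λ * k ^ (r - 1)) := by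
        have h5 : k ^ (r - 1) * X * M ≤ k ^ Fintype.card V * (ρ * j * Λ * k ^ (r - 1)) := by
          rw [h2, mul_assoc]
          exact Nat.mul_le_mul_left _ h1
        exact_mod_cast h5
      have h6 : (k:ℝ) ^ (r - 1) * M * X ≤ (k:ℝ) ^ (r - 1) * M *
          (ρ * t s * Λ * k ^ Fintype.card V) := by
        calc (k:ℝ) ^ (r - 1) * M * X = (k:ℝ) ^ (r - 1) * X * M := by ring
          _ ≤ k ^ Fintype.card V * (ρ * j * Λ * k ^ (r - 1)) := h4
          _ = (k ^ Fintype.card V * ρ * Λ * k ^ (r - 1)) * j := by ring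
          _ ≤ (k ^ Fintype.card V * ρ * Λ * k ^ (r - 1)) * (M * t s) :=
              mul_le_mul_of_nonneg_left hj2 (by positivity)
          _ = _ := by ring
      exact le_of_mul_le_mul_left h6 (by positivity)
    · have h1 : X ≤ Λ * k ^ Fintype.card V := by
        rw [hX, hΛd, Finset.sum_mul]
        refine Finset.sum_le_sum fun i _ => Nat.mul_le_mul_left _ ?_
        refine (Finset.sum_le_card_nsmul _ _ 1 fun f _ => ?_).trans ?_
        · split_ifs <;> norm_num
        · rw [Finset.card_univ, Fintype.card_fun, Fintype.card_fin, smul_eq_mul, mul_one]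
      have h2 : (1:ℝ) ≤ ρ * t s := by
        have h3 : (J : ℝ) ≤ j := by exact_mod_cast hjJ
        have h4 : (M : ℝ) ≤ ρ * J := by exact_mod_cast hJ
        have h5 : (M : ℝ) * 1 ≤ M * (ρ * t s) := by
          calc (M : ℝ) * 1 ≤ ρ * J := by linarith
            _ ≤ ρ * (M * t s) := mul_le_mul_of_nonneg_left (h3.trans hj2) (by positivity)
            _ = M * (ρ * t s) := by ring
        exact le_of_mul_le_mul_left h5 hMR
      calc (X : ℝ) ≤ ((Λ * k ^ Fintype.card V : ℕ) : ℝ) := by exact_mod_cast h1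
        _ = 1 * ((Λ : ℝ) * k ^ Fintype.card V) := by push_cast; ring
        _ ≤ (ρ * t s) * ((Λ : ℝ) * k ^ Fintype.card V) :=
            mul_le_mul_of_nonneg_right h2 (by positivity)
        _ = _ := by ring
  have hsum := Finset.sum_le_sum hup
  have hswap : ∑ s ∈ K, (∑ i, (lam i : ℝ) * ∑ f : V → Fin k,
      (if (get (N i) (∑ v ∈ s, ws (f v)) : ℝ) / M ≤ t s then (1:ℝ) else 0)) =
      ∑ i, (lam i : ℝ) * ∑ f : V → Fin k, ((C i f).card : ℝ) := by
    rw [Finset.sum_comm]
    refine Finset.sum_congr rfl fun i _ => ?_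
    rw [← Finset.mul_sum, Finset.sum_comm]
    congr 1
    refine Finset.sum_congr rfl fun f _ => ?_
    rw [hC, Finset.card_filter]
    push_cast
    rfl
  have hf : ∀ i, ρ * T * k ^ Fintype.card V < ∑ f : V → Fin k, ((C i f).card : ℝ) := by
    intro i
    have h2 : ∑ _f : V → Fin k, ρ * T < ∑ f : V → Fin k, ((C i f).card : ℝ) :=
      Finset.sum_lt_sum_of_nonempty ⟨fun _ => ⟨0, hk⟩, Finset.mem_univ _⟩ fun f _ => hcard i f
    rw [Finset.sum_const, Finset.card_univ, Fintype.card_fun, Fintype.card_fin,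
      nsmul_eq_mul] at h2
    push_cast at h2
    linarith
  obtain ⟨i0, -, hi0⟩ : ∃ i ∈ Finset.univ, 0 < lam i := by
    by_contra hno
    push Not at hno
    have : ∑ i, lam i = 0 := Finset.sum_eq_zero fun i hi => Nat.le_zero.1 (hno i hi)
    omega
  have hlow : ∑ i, (lam i : ℝ) * (ρ * T * k ^ Fintype.card V) <
      ∑ i, (lam i : ℝ) * ∑ f : V → Fin k, ((C i f).card : ℝ) := by
    refine Finset.sum_lt_sum (fun i _ => mul_le_mul_of_nonneg_left (hf i).le (Nat.cast_nonneg _))
      ⟨i0, Finset.mem_univ _, mul_lt_mul_of_pos_left (hf i0) (by exact_mod_cast hi0)⟩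
  have hfin : ∑ s ∈ K, (ρ * t s * Λ * k ^ Fintype.card V : ℝ) =
      ∑ i, (lam i : ℝ) * (ρ * T * k ^ Fintype.card V) := by
    have h7 : (∑ i, (lam i : ℝ)) = (Λ : ℝ) := by rw [hΛd]; push_cast; rfl
    have h8 : ∑ i, (lam i : ℝ) * (ρ * T * k ^ Fintype.card V) =
        (Λ : ℝ) * (ρ * T * k ^ Fintype.card V) := by rw [← Finset.sum_mul, h7]
    rw [h8, hT, Finset.mul_sum, Finset.sum_mul, Finset.mul_sum]
    refine Finset.sum_congr rfl fun s _ => ?_
    ring
  rw [hfin, hswap] at hsum
  linarith

theorem cert_main {k : ℕ} (hk : 0 < k) (ws : Fin k → ℕ) {r M ρ J : ℕ} (hr : 1 ≤ r) (hM : 0 < M)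
    (cols : List (ℕ × ℕ))
    (hA : ∀ p ∈ cols, evCheck p.2 M (List.ofFn ws) r 0 [] = true)
    (hB : ∀ j < J, cdf cols (List.ofFn ws) (r - 1) j * M ≤
      ρ * j * (cols.map Prod.fst).sum * k ^ (r - 1))
    (hJ : M ≤ ρ * J) (hΛ : 0 < (cols.map Prod.fst).sum)
    (H : Finset (Finset V)) (hH : ∀ e ∈ H, e.card = r) {t : Finset V → ℝ}
    (ht : IsFractionalCover r H t) :
    ∃ C, IsCover r H C ∧ (C.card : ℝ) ≤
      ρ * ∑ s ∈ (univ : Finset V).powersetCard (r - 1), t s := by
  refine cert_fin (ι := Fin cols.length) hk ws hr hM (fun i => cols[i.1].1) (fun i => cols[i.1].2)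
    (J := J) ?_ ?_ hJ ?_ H hH ht
  · intro i
    exact hA _ (List.getElem_mem _)
  · intro j hj
    have h1 := hB j hj
    rw [cdf] at h1
    rw [Fin.sum_univ_fun_getElem cols (fun p => p.1),
      Fin.sum_univ_fun_getElem cols
        (fun p => p.1 * D (List.ofFn ws) (r - 1) fun I => if get p.2 I ≤ j then 1 else 0)]
    exact h1
  · rw [Fin.sum_univ_fun_getElem cols (fun p => p.1)]
    exact hΛ

end Pool.Agent.H44T
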