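import Pool.Agent.Lib.H44.Tuza.Cert

/-!
# A faster check of the distribution of the columns

The histogram of all columns is stored in one number in base `2 ^ 64`.
-/

set_option autoImplicit false

namespace Pool.Agent.H44T

open Finset

/-- the histogram in base `B` -/
def hist (B : ℕ) (cols : List (ℕ × ℕ)) (ws : List ℕ) (m : ℕ) : ℕ :=
  (cols.map fun p => p.1 * D ws m fun I => B ^ get p.2 I).sum

/-- reading the digits of the histogram `T` -/
def go (B M ρ S : ℕ) : ℕ → ℕ → ℕ → ℕ → Bool
  | 0, _, _, _ => true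
  | n + 1, T, c, j => decide ((c + T % B) * M ≤ ρ * j * S) && go B M ρ S n (T / B) (c + T % B) (j + 1)

theorem go_sound {B M ρ S : ℕ} (F : ℕ → ℕ) (hF : ∀ i, F i < B) : ∀ (n T c j N : ℕ), n ≤ N →
    T = ∑ i ∈ range N, F (j + i) * B ^ i → go B M ρ S n T c j = true → ∀ i < n,
    (c + ∑ i' ∈ range (i + 1), F (j + i')) * M ≤ ρ * (j + i) * S := by
  intro n
  induction n with
  | zero => intro T c j N _ _ _ i hi; omega
  | succ n ih =>
    intro T c j N hN hT h i hi
    obtain ⟨N', rfl⟩ : ∃ N', N = N' + 1 := ⟨N - 1, by omega⟩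
    have hB : 0 < B := lt_of_le_of_lt (Nat.zero_le _) (hF 0)
    have hT2 : T = F j + B * ∑ i ∈ range N', F (j + 1 + i) * B ^ i := by
      rw [hT, Finset.sum_range_succ', Finset.mul_sum, add_comm]
      congr 1
      · simp
      · refine Finset.sum_congr rfl fun i _ => ?_
        rw [show j + (i + 1) = j + 1 + i by ring, pow_succ]
        ring
    have hmod : T % B = F j := by
      rw [hT2, Nat.add_mul_mod_self_left, Nat.mod_eq_of_lt (hF j)]
    have hdiv : T / B = ∑ i ∈ range N', F (j + 1 + i) * B ^ i := by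
      rw [hT2, Nat.add_mul_div_left _ _ hB, Nat.div_eq_of_lt (hF j), zero_add]
    rw [go, Bool.and_eq_true, decide_eq_true_eq, hmod] at h
    obtain ⟨h1, h2⟩ := h
    rcases i with _ | i
    · simpa using h1
    · have h3 := ih (T / B) (c + F j) (j + 1) N' (by omega) hdiv h2 i (by omega)
      rw [Finset.sum_range_succ' _ (i + 1)]
      have h4 : c + F j + ∑ i' ∈ range (i + 1), F (j + 1 + i') =
          c + (∑ i' ∈ range (i + 1), F (j + (i' + 1)) + F (j + 0)) := by
        rw [add_assoc, add_zero, add_comm (F j)]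
        congr 2
        refine Finset.sum_congr rfl fun i' _ => ?_
        congr 1
        ring
      rw [h4] at h3
      rw [show j + (i + 1) = j + 1 + i by ring]
      exact h3

theorem D_eq {k : ℕ} (hk : 0 < k) (ws : Fin k → ℕ) (m : ℕ) (Φ : ℕ → ℕ) :
    D (List.ofFn ws) m Φ = ∑ f : Fin m → Fin k, Φ (∑ v, ws (f v)) := by
  have h := count (V := Fin m) ws Finset.univ Φ
  rw [Finset.card_univ, Fintype.card_fin] at h
  exact (Nat.eq_of_mul_eq_mul_left (pow_pos hk m) h).symm

theorem get_lt (N I : ℕ) : get N I < 4096 := Nat.mod_lt _ (by norm_num)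

theorem list_sum_comm (L : List (ℕ × ℕ)) (s : Finset ℕ) (g : ℕ × ℕ → ℕ → ℕ) :
    (L.map fun p => ∑ i ∈ s, g p i).sum = ∑ i ∈ s, (L.map fun p => g p i).sum := by
  induction L with
  | nil => simp
  | cons p L ih => simp only [List.map_cons, List.sum_cons, ih, Finset.sum_add_distrib]

theorem list_sum_mul (L : List (ℕ × ℕ)) (g : ℕ × ℕ → ℕ) (b : ℕ) :
    (L.map fun p => g p * b).sum = (L.map fun p => g p).sum * b := by
  induction L with
  | nil => simp
  | cons p L ih => simp only [List.map_cons, List.sum_cons, ih, add_mul]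

theorem cert_main2 {V : Type*} [DecidableEq V] [Fintype V] {k : ℕ} (hk : 0 < k) (ws : Fin k → ℕ)
    {r M ρ J S Λ : ℕ} (hr : 1 ≤ r) (hM : 0 < M) (cols : List (ℕ × ℕ))
    (hA : ∀ p ∈ cols, evCheck p.2 M (List.ofFn ws) r 0 [] = true)
    (hΛe : (cols.map Prod.fst).sum = Λ) (hS : S = Λ * k ^ (r - 1)) (hSB : S < 2 ^ 64)
    (hJ' : J ≤ 4096)
    (hB : go (2 ^ 64) M ρ S J (hist (2 ^ 64) cols (List.ofFn ws) (r - 1)) 0 0 = true)
    (hJ : M ≤ ρ * J) (hΛ : 0 < Λ)
    (H : Finset (Finset V)) (hH : ∀ e ∈ H, e.card = r) {t : Finset V → ℝ}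
    (ht : IsFractionalCover r H t) :
    ∃ C, IsCover r H C ∧ (C.card : ℝ) ≤
      ρ * ∑ s ∈ (univ : Finset V).powersetCard (r - 1), t s := by
  refine cert_main (J := J) hk ws hr hM cols hA ?_ hJ (hΛe ▸ hΛ) H hH ht
  set m := r - 1 with hm
  set B : ℕ := 2 ^ 64 with hBd
  set c : ℕ → ℕ → ℕ := fun N i =>
    (Finset.univ.filter fun f : Fin m → Fin k => get N (∑ v, ws (f v)) = i).card with hc
  set F : ℕ → ℕ := fun i => (cols.map fun p => p.1 * c p.2 i).sum with hFd
  have hcdf : ∀ j, cdf cols (List.ofFn ws) m j = ∑ i ∈ range (j + 1), F i := by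
    intro j
    unfold cdf
    rw [hFd, ← list_sum_comm cols (range (j + 1)) (fun p i => p.1 * c p.2 i)]
    congr 2
    funext p
    rw [← Finset.mul_sum, D_eq hk]
    congr 1
    rw [← Finset.card_filter, Finset.card_eq_sum_card_fiberwise (t := range (j + 1))
      (f := fun f : Fin m → Fin k => get p.2 (∑ v, ws (f v)))]
    · refine Finset.sum_congr rfl fun i hi => ?_
      rw [hc, Finset.filter_filter]
      congr 1
      refine Finset.filter_congr fun f _ => ?_
      have := Finset.mem_range.1 hi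
      constructor
      · rintro ⟨_, h⟩; exact h
      · intro h; exact ⟨by omega, h⟩
    · intro f hf
      rw [Finset.coe_filter] at hf
      rw [Finset.coe_range]
      have h1 := hf.2
      show get p.2 (∑ v, ws (f v)) < j + 1
      omega
  have hpow : ∀ N : ℕ, ∀ b : ℕ → ℕ, ∑ f : Fin m → Fin k, b (get N (∑ v, ws (f v))) =
      ∑ i ∈ range 4096, c N i * b i := by
    intro N b
    rw [← Finset.sum_fiberwise_of_maps_to (t := range 4096)
      (g := fun f : Fin m → Fin k => get N (∑ v, ws (f v)))
      (fun f _ => Finset.mem_range.2 (get_lt _ _))]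
    refine Finset.sum_congr rfl fun i _ => ?_
    rw [hc, Finset.sum_congr rfl (g := fun _ => b i)
      (fun f hf => by rw [(Finset.mem_filter.1 hf).2]), Finset.sum_const, smul_eq_mul]
  have hhist : hist B cols (List.ofFn ws) m = ∑ i ∈ range 4096, F (0 + i) * B ^ i := by
    unfold hist
    have h1 : ∀ i, F (0 + i) * B ^ i = (cols.map fun p => p.1 * c p.2 i * B ^ i).sum := by
      intro i
      rw [zero_add, hFd, ← list_sum_mul cols (fun p => p.1 * c p.2 i)]
    simp only [h1]
    rw [← list_sum_comm cols (range 4096) (fun p i => p.1 * c p.2 i * B ^ i)]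
    refine congrArg List.sum (List.map_congr_left fun p _ => ?_)
    rw [D_eq hk, hpow p.2 (fun i => B ^ i), Finset.mul_sum]
    refine Finset.sum_congr rfl fun i _ => ?_
    ring
  have htot : ∑ i ∈ range 4096, F i = S := by
    rw [hFd, ← list_sum_comm cols (range 4096) (fun p i => p.1 * c p.2 i), hS, ← hΛe,
      ← list_sum_mul cols (fun p => p.1)]
    refine congrArg List.sum (List.map_congr_left fun p _ => ?_)
    rw [← Finset.mul_sum]
    refine congrArg (fun z => p.1 * z) ?_
    have h1 := hpow p.2 (fun _ => 1)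
    simp only [mul_one] at h1
    rw [← h1, Finset.sum_const, Finset.card_univ, Fintype.card_fun, Fintype.card_fin,
      Fintype.card_fin, smul_eq_mul, mul_one]
  have hFB : ∀ i, F i < B := by
    intro i
    rcases lt_or_ge i 4096 with hi | hi
    · have h1 : F i ≤ ∑ i ∈ range 4096, F i :=
        Finset.single_le_sum (f := F) (fun _ _ => Nat.zero_le _) (Finset.mem_range.2 hi)
      exact lt_of_le_of_lt (h1.trans_eq htot) hSB
    · have h1 : F i = 0 := by
        simp only [hFd]
        refine List.sum_eq_zero fun x hx => ?_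
        obtain ⟨p, -, rfl⟩ := List.mem_map.1 hx
        have : c p.2 i = 0 := by
          rw [hc, Finset.card_eq_zero, Finset.filter_eq_empty_iff]
          intro f _ h
          have := get_lt p.2 (∑ v, ws (f v))
          omega
        rw [this, mul_zero]
      rw [h1]
      exact pow_pos two_pos 64
  intro j hj
  have h1 := go_sound F hFB J _ 0 0 4096 hJ' hhist hB j hj
  simp only [zero_add] at h1
  rw [hcdf j, hΛe]
  refine h1.trans (le_of_eq ?_)
  rw [hS]
  ring

end Pool.Agent.H44T
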