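import Pool.Agent.Lib.H44.Tuza.Cert2

/-!
# Certificate for `r = 4`, constant `3`
-/

set_option autoImplicit false

namespace Pool.Agent.H44T

/-- the columns: weight and table -/
def cols4 : List (ℕ × ℕ) :=
  [
    (6448, 0xd00000000700500000701400500d00500700d),
    (411, 0xd00000000200c00000c01300200d00200c00d),
    (9928, 0xd00000000800400000401400400d00800800d),
    (14928, 0xd00000000b00300000b01300b00d00300300d),
    (10782, 0x400000001000a00000a00d01000401000a004),
    (2037, 0xd00000000700700000701300700d00700700d),
    (72, 0xd00000000500500000601500500d00400500d),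
    (2077, 0xd00000000800200000201500800d00800200d),
    (1236, 0xd00000000600800000601300900d00800500d),
    (9920, 0x100000000901100001100d009001009011001),
    (2449, 0x700000000900f00001000e007004008011001),
    (12440, 0xa00000000200e00000e01200200a00200e00a),
    (3168, 0x100000001100500000500f011001011005001),
    (1283, 0x400000001000800000800e010004010008004),
    (3780, 0xd00000000900500000501300900d00900500d),
    (6017, 0xd00000000600600000601400600d00600600d),
    (9952, 0x700000000100f00000f01200100700100f007),
    (3071, 0x400000000601000001100f006001005010004)]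

theorem checkA4 : ∀ p ∈ cols4, evCheck p.2 52 [1, 4, 0] 4 0 [] = true := by
  decide +kernel

theorem checkL4 : (cols4.map Prod.fst).sum = 99999 := by
  decide +kernel

theorem checkB4 : go (2 ^ 64) 52 3 2699973 18 (hist (2 ^ 64) cols4 [1, 4, 0] (4 - 1)) 0 0 = true := by
  decide +kernel

theorem four {V : Type*} [DecidableEq V] [Fintype V] (H : Finset (Finset V))
    (hH : ∀ e ∈ H, e.card = 4) {t : Finset V → ℝ} (ht : IsFractionalCover 4 H t) :
    ∃ C, IsCover 4 H C ∧ (C.card : ℝ) ≤
      (3 : ℕ) * ∑ s ∈ (Finset.univ : Finset V).powersetCard (4 - 1), t s :=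
  cert_main2 (k := 3) (by norm_num) ![1, 4, 0] (r := 4) (M := 52) (J := 18) (S := 2699973) (Λ := 99999)
    (by norm_num) (by norm_num) cols4 checkA4 checkL4 (by norm_num) (by norm_num) (by norm_num)
    checkB4 (by norm_num) (by norm_num) H hH ht

end Pool.Agent.H44T
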